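import Pool.Agent.Helper32_RES.Vit

/-!
# Squad RST: module DZO (from small density to density zero)
-/

set_option autoImplicit false

noncomputable section

namespace Pool.Agent.RES.H32

open Pool.Agent.Anderson Pool.Agent.Helper54.Bal Pool.Agent.QE Pool.Agent.RES Filter

open scoped Classical Topology

variable {d : ℕ}

theorem bx_mono' {m n : ℕ} (h : m ≤ n) : bx d m ⊆ bx d n := by
  intro x hx
  rw [mem_bx'] at hx ⊢
  intro i
  have := hx i
  have h' : (m : ℤ) ≤ n := by exact_mod_cast h
  omega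

theorem exists_bx (s : Finset (Site d)) : ∃ T : ℕ, s ⊆ bx d T := by
  refine ⟨s.sup fun x => Finset.univ.sup fun i => (x i).natAbs, ?_⟩
  intro x hx
  rw [mem_bx']
  intro i
  have h1 : (x i).natAbs ≤ Finset.univ.sup fun i => (x i).natAbs :=
    Finset.le_sup (f := fun i => (x i).natAbs) (Finset.mem_univ i)
  have h2 : (Finset.univ.sup fun i => (x i).natAbs) ≤
      s.sup fun x => Finset.univ.sup fun i => (x i).natAbs :=
    Finset.le_sup (f := fun x => Finset.univ.sup fun i => (x i).natAbs) hx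
  have h3 := h1.trans h2
  rw [Int.abs_eq_natAbs]
  exact_mod_cast h3

/-- the radii -/
def rad (d : ℕ) (T : ℕ → ℕ) : ℕ → ℕ
  | 0 => T 0
  | j + 1 => rad d T j + 1 + T (j + 1) + (2 * rad d T j + 1) ^ d * (j + 2)

theorem T_le_rad (T : ℕ → ℕ) (j : ℕ) : T j ≤ rad d T j := by
  cases j with
  | zero => exact le_rfl
  | succ j =>
    rw [rad]
    omega

theorem rad_strictMono (T : ℕ → ℕ) : StrictMono (rad d T) := by
  apply strictMono_nat_of_lt_succ
  intro j
  rw [rad]
  omega

theorem rad_pow (hd : d ≠ 0) (T : ℕ → ℕ) (j : ℕ) :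
    (2 * rad d T j + 1) ^ d * (j + 2) ≤ (2 * rad d T (j + 1) + 1) ^ d := by
  have h1 : 2 * rad d T (j + 1) + 1 ≤ (2 * rad d T (j + 1) + 1) ^ d :=
    Nat.le_self_pow hd _
  refine le_trans ?_ h1
  rw [rad]
  omega

/-- DZO -/
theorem dzo : DzoStmt := by
  intro d φ hB
  by_cases hd : d = 0
  · subst hd
    refine ⟨∅, ?_, Summable.of_finite⟩
    unfold DensityZero
    simp
  choose B hB1 hB2 using hB
  have htail : ∀ j : ℕ, ∃ T : ℕ, ∀ R : ℕ, T ≤ R → ∀ t : Finset (Site d), Disjoint t (bx d R) →
      ∑ x ∈ t, Set.indicator (B j)ᶜ (fun x => ‖φ x‖) x ≤ (1 / 2 : ℝ) ^ j := by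
    intro j
    obtain ⟨s, hs⟩ := summable_iff_vanishing_norm.1 (hB2 j) ((1 / 2 : ℝ) ^ j) (by positivity)
    obtain ⟨T, hT⟩ := exists_bx s
    refine ⟨T, fun R hR t ht => ?_⟩
    have h1 := hs t (Finset.disjoint_of_subset_right (hT.trans (bx_mono' hR)) ht)
    exact (le_abs_self _).trans h1.le
  choose T hT using htail
  set r := rad d T with hr
  have hmono : StrictMono r := rad_strictMono T
  set Bd : Set (Site d) := {x | ∃ j, x ∈ B j ∧ x ∈ bx d (r (j + 1)) ∧ x ∉ bx d (r j)} with hBd
  refine ⟨Bd, ?_, ?_⟩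
  · -- density zero
    have hkey : ∀ j R : ℕ, r (j + 1) ≤ R → R < r (j + 2) →
        ((Bd ∩ (bx d R : Set (Site d))).ncard : ℝ) ≤ 3 / (j + 1) * (2 * (R : ℝ) + 1) ^ d := by
      intro j R h1 h2
      have hsub : Bd ∩ (bx d R : Set (Site d)) ⊆ (bx d (r j) : Set (Site d)) ∪
          (B j ∩ (bx d (r (j + 1)) : Set (Site d))) ∪ (B (j + 1) ∩ (bx d R : Set (Site d))) := by
        rintro x ⟨⟨i, hi1, hi2, hi3⟩, hxR⟩
        have hij : i ≤ j + 1 := by
          by_contra hcon
          push Not at hcon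
          apply hi3
          refine bx_mono' ?_ hxR
          exact h2.le.trans (hmono.monotone (by omega))
        rcases hij.lt_or_eq with h3 | rfl
        · rcases (Nat.lt_succ_iff.1 h3).lt_or_eq with h4 | rfl
          · left
            left
            exact bx_mono' (hmono.monotone (by omega)) hi2
          · left
            right
            exact ⟨hi1, hi2⟩
        · right
          exact ⟨hi1, hxR⟩
      have hfin : ((bx d (r j) : Set (Site d)) ∪ (B j ∩ (bx d (r (j + 1)) : Set (Site d))) ∪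
          (B (j + 1) ∩ (bx d R : Set (Site d)))).Finite := by
        refine Set.Finite.union (Set.Finite.union (Finset.finite_toSet _) ?_) ?_
        · exact (Finset.finite_toSet _).subset Set.inter_subset_right
        · exact (Finset.finite_toSet _).subset Set.inter_subset_right
      have h3 := Set.ncard_le_ncard hsub hfin
      have h4 := h3.trans (Set.ncard_union_le _ _)
      have h5 := h4.trans (Nat.add_le_add_right (Set.ncard_union_le _ _) _)
      rw [Set.ncard_coe_finset, card_bx'] at h5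
      have h6 : ((Bd ∩ (bx d R : Set (Site d))).ncard : ℝ) ≤ (2 * (r j : ℝ) + 1) ^ d +
          ((B j ∩ (bx d (r (j + 1)) : Set (Site d))).ncard : ℝ) +
          ((B (j + 1) ∩ (bx d R : Set (Site d))).ncard : ℝ) := by exact_mod_cast h5
      have h7 := hB1 j (r (j + 1))
      have h8 := hB1 (j + 1) R
      have hR' : (2 * (r (j + 1) : ℝ) + 1) ^ d ≤ (2 * (R : ℝ) + 1) ^ d := by
        apply pow_le_pow_left₀ (by positivity)
        have : ((r (j + 1) : ℕ) : ℝ) ≤ R := by exact_mod_cast h1
        linarith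
      have hj : (0 : ℝ) < (j : ℝ) + 1 := by positivity
      have h9 : (2 * (r j : ℝ) + 1) ^ d ≤ (2 * (R : ℝ) + 1) ^ d / (j + 1) := by
        rw [le_div_iff₀ hj]
        have e1 := rad_pow hd T j
        rw [← hr] at e1
        have e2 : (2 * (r j : ℝ) + 1) ^ d * ((j : ℝ) + 2) ≤ (2 * (r (j + 1) : ℝ) + 1) ^ d := by
          exact_mod_cast e1
        have e3 : (0 : ℝ) ≤ (2 * (r j : ℝ) + 1) ^ d := by positivity
        nlinarith
      have h10 : (2 * (r (j + 1) : ℝ) + 1) ^ d / (j + 1) ≤ (2 * (R : ℝ) + 1) ^ d / (j + 1) := by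
        gcongr
      have h11 : (2 * (R : ℝ) + 1) ^ d / (((j + 1 : ℕ) : ℝ) + 1) ≤
          (2 * (R : ℝ) + 1) ^ d / (j + 1) := by
        apply div_le_div_of_nonneg_left (by positivity) hj
        push_cast
        linarith
      have h12 : 3 / ((j : ℝ) + 1) * (2 * (R : ℝ) + 1) ^ d =
          (2 * (R : ℝ) + 1) ^ d / (j + 1) + (2 * (R : ℝ) + 1) ^ d / (j + 1) +
            (2 * (R : ℝ) + 1) ^ d / (j + 1) := by ring
      rw [h12]
      linarith
    have hall : ∀ j R : ℕ, r (j + 1) ≤ R →
        ((Bd ∩ (bx d R : Set (Site d))).ncard : ℝ) ≤ 3 / (j + 1) * (2 * (R : ℝ) + 1) ^ d := by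
      intro j R h1
      have hex : ∃ m, R < r m := ⟨R + 1, lt_of_lt_of_le (Nat.lt_succ_self R) (hmono.id_le _)⟩
      have h2 := Nat.find_spec hex
      have h3 : ∀ m, R < r m → j + 2 ≤ m := by
        intro m hm
        by_contra hcon
        push Not at hcon
        have := hmono.monotone (show m ≤ j + 1 by omega)
        omega
      obtain ⟨i, hi⟩ : ∃ i, Nat.find hex = i + 2 := ⟨Nat.find hex - 2, by
        have := h3 _ h2
        omega⟩
      have h4 : ¬ R < r (i + 1) := Nat.find_min hex (by omega)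
      rw [hi] at h2
      have h5 := hkey i R (by omega) h2
      have h6 : j ≤ i := by
        have := h3 _ h2
        omega
      refine h5.trans ?_
      have h7 : (j : ℝ) ≤ i := by exact_mod_cast h6
      gcongr
    unfold DensityZero
    rw [Metric.tendsto_atTop]
    intro ε hε
    obtain ⟨j, hj⟩ := exists_nat_gt (3 / ε)
    refine ⟨r (j + 1), fun R hR => ?_⟩
    have h1 := hall j R hR
    rw [Real.dist_eq, sub_zero, card_bx', abs_of_nonneg (by positivity)]
    push_cast
    have h2 : (0 : ℝ) < (2 * (R : ℝ) + 1) ^ d := by positivity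
    rw [div_lt_iff₀ h2]
    refine h1.trans_lt ?_
    apply mul_lt_mul_of_pos_right _ h2
    have hj0 : (0 : ℝ) < (j : ℝ) + 1 := by positivity
    rw [div_lt_iff₀ hj0]
    rw [div_lt_iff₀ hε] at hj
    nlinarith
  · -- summability
    have hF0 : ∀ x, 0 ≤ Set.indicator Bdᶜ (fun x => ‖φ x‖) x := fun x =>
      Set.indicator_nonneg (fun _ _ => norm_nonneg _) x
    have hsum : Summable (Set.indicator Bdᶜ fun x => ‖φ x‖) := by
      have hstep : ∀ J : ℕ, ∑ x ∈ bx d (r J), Set.indicator Bdᶜ (fun x => ‖φ x‖) x ≤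
          ∑ x ∈ bx d (r 0), Set.indicator Bdᶜ (fun x => ‖φ x‖) x +
            ∑ j ∈ Finset.range J, (1 / 2 : ℝ) ^ j := by
        intro J
        induction J with
        | zero => simp
        | succ J ih =>
          have hsub : bx d (r J) ⊆ bx d (r (J + 1)) :=
            bx_mono' (hmono.monotone (Nat.le_succ J))
          rw [← Finset.sum_sdiff hsub, Finset.sum_range_succ]
          have h1 : ∑ x ∈ bx d (r (J + 1)) \ bx d (r J),
              Set.indicator Bdᶜ (fun x => ‖φ x‖) x ≤ (1 / 2 : ℝ) ^ J := by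
            refine le_trans (Finset.sum_le_sum ?_) (hT J (r J) (T_le_rad T J) _
              Finset.sdiff_disjoint)
            intro x hx
            obtain ⟨hx1, hx2⟩ := Finset.mem_sdiff.1 hx
            by_cases hxB : x ∈ B J
            · have : x ∈ Bd := ⟨J, hxB, hx1, hx2⟩
              rw [Set.indicator_of_notMem (show x ∉ Bdᶜ from fun h => h this)]
              exact Set.indicator_nonneg (fun _ _ => norm_nonneg _) x
            · rw [Set.indicator_of_mem (show x ∈ (B J)ᶜ from hxB)]
              exact Set.indicator_le_self' (fun _ _ => norm_nonneg _) x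
          linarith
      have hgeo : ∀ J : ℕ, ∑ j ∈ Finset.range J, (1 / 2 : ℝ) ^ j ≤ 2 := by
        intro J
        have h1 := Summable.sum_le_tsum (f := fun j : ℕ => (1 / 2 : ℝ) ^ j) (Finset.range J)
          (fun _ _ => by positivity) summable_geometric_two
        rwa [tsum_geometric_two] at h1
      refine summable_of_sum_le (c := ∑ x ∈ bx d (r 0),
        Set.indicator Bdᶜ (fun x => ‖φ x‖) x + 2) hF0 ?_
      intro u
      obtain ⟨S, hS⟩ := exists_bx u
      have h1 : u ⊆ bx d (r S) := hS.trans (bx_mono' (hmono.id_le S))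
      calc ∑ x ∈ u, Set.indicator Bdᶜ (fun x => ‖φ x‖) x ≤
          ∑ x ∈ bx d (r S), Set.indicator Bdᶜ (fun x => ‖φ x‖) x :=
            Finset.sum_le_sum_of_subset_of_nonneg h1 fun x _ _ => hF0 x
        _ ≤ _ := (hstep S).trans (by linarith [hgeo S])
    exact summable_subtype_iff_indicator.2 hsum

end Pool.Agent.RES.H32
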