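import Pool.Agent.Helper70_RES.Stmts

/-!
# Squad RST: module VIT (Vitali covering inequality on the lattice)
-/

set_option autoImplicit false

noncomputable section

namespace Pool.Agent.RES.H32

open Pool.Agent.Anderson Pool.Agent.QE Pool.Agent.RES

open scoped Classical

variable {d : ℕ}

theorem mem_bx' {L : ℕ} {y : Site d} : y ∈ bx d L ↔ ∀ i, |y i| ≤ L := by
  unfold bx
  rw [Fintype.mem_piFinset]
  simp only [Finset.mem_Icc, abs_le]

theorem card_bx' (L : ℕ) : (bx d L).card = (2 * L + 1) ^ d := by
  unfold bx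
  rw [Fintype.card_piFinset]
  have h : (Finset.Icc (-(L : ℤ)) L).card = 2 * L + 1 := by
    rw [Int.card_Icc]
    omega
  simp only [h, Finset.prod_const, Finset.card_univ, Fintype.card_fin]

theorem vit_aux (n : ℕ) : ∀ (A B : Finset (Site d)) (r : Site d → ℕ) (ε : ℝ), 0 < ε →
    A.card ≤ n →
    (∀ x ∈ A, ε * (2 * (r x : ℝ) + 1) ^ d ≤
      ((B.filter fun y => y - x ∈ bx d (r x)).card : ℝ)) →
    ε * (A.card : ℝ) ≤ 5 ^ d * (B.card : ℝ) := by
  induction n with
  | zero =>
    intro A B r ε hε hA _
    have : A.card = 0 := by omega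
    rw [this, Nat.cast_zero, mul_zero]
    positivity
  | succ n ih =>
    intro A B r ε hε hA h
    rcases A.eq_empty_or_nonempty with rfl | hne
    · rw [Finset.card_empty, Nat.cast_zero, mul_zero]
      positivity
    obtain ⟨x, hx, hmax⟩ := A.exists_max_image r hne
    set A' := A \ (A.filter fun y => y - x ∈ bx d (2 * r x)) with hA'
    set B' := B \ (B.filter fun y => y - x ∈ bx d (r x)) with hB'
    have h1 := Finset.card_sdiff_add_card_eq_card (Finset.filter_subset
      (fun y => y - x ∈ bx d (2 * r x)) A)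
    have h2 := Finset.card_sdiff_add_card_eq_card (Finset.filter_subset
      (fun y => y - x ∈ bx d (r x)) B)
    rw [← hA'] at h1
    rw [← hB'] at h2
    have h3 : (A.filter fun y => y - x ∈ bx d (2 * r x)).card ≤ (4 * r x + 1) ^ d := by
      have e := card_bx' (d := d) (2 * r x)
      rw [show 2 * (2 * r x) + 1 = 4 * r x + 1 by ring] at e
      rw [← e]
      apply Finset.card_le_card_of_injOn (fun y => y - x)
      · intro y hy
        exact (Finset.mem_filter.1 hy).2
      · intro y _ z _ hyz
        exact sub_left_injective hyz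
    have h4 : x ∈ A.filter fun y => y - x ∈ bx d (2 * r x) := by
      rw [Finset.mem_filter]
      refine ⟨hx, ?_⟩
      rw [sub_self, mem_bx']
      intro i
      simp
    have h5 : 0 < (A.filter fun y => y - x ∈ bx d (2 * r x)).card := Finset.card_pos.2 ⟨x, h4⟩
    have h6 := ih A' B' r ε hε (by omega) (by
      intro y hy
      obtain ⟨hyA, hyx'⟩ := Finset.mem_sdiff.1 hy
      have hyx : y - x ∉ bx d (2 * r x) := fun h => hyx' (Finset.mem_filter.2 ⟨hyA, h⟩)
      refine (h y hyA).trans ?_
      have : (B.filter fun z => z - y ∈ bx d (r y)) ⊆ B'.filter fun z => z - y ∈ bx d (r y) := by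
        intro z hz
        obtain ⟨hzB, hzy⟩ := Finset.mem_filter.1 hz
        rw [Finset.mem_filter]
        refine ⟨Finset.mem_sdiff.2 ⟨hzB, fun hzx' => hyx ?_⟩, hzy⟩
        have hzx := (Finset.mem_filter.1 hzx').2
        rw [mem_bx'] at hzx hzy ⊢
        intro i
        have e1 := hzx i
        have e2 := hzy i
        have e3 := hmax y hyA
        rw [Pi.sub_apply, abs_le] at e1 e2 ⊢
        push_cast
        have e4 : ((r y : ℕ) : ℤ) ≤ r x := by exact_mod_cast e3
        constructor <;> omega
      exact_mod_cast Finset.card_le_card this)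
    have h7 := h x hx
    have h8 : (A.card : ℝ) = ((A.filter fun y => y - x ∈ bx d (2 * r x)).card : ℝ) +
        (A'.card : ℝ) := by
      rw [← h1]
      push_cast
      ring
    have h9 : (B.card : ℝ) = ((B.filter fun y => y - x ∈ bx d (r x)).card : ℝ) +
        (B'.card : ℝ) := by
      rw [← h2]
      push_cast
      ring
    have h10 : ((A.filter fun y => y - x ∈ bx d (2 * r x)).card : ℝ) ≤
        (4 * (r x : ℝ) + 1) ^ d := by exact_mod_cast h3
    have h11 : (4 * (r x : ℝ) + 1) ^ d ≤ 5 ^ d * (2 * (r x : ℝ) + 1) ^ d := by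
      rw [← mul_pow]
      apply pow_le_pow_left₀ (by positivity)
      have : (0 : ℝ) ≤ r x := Nat.cast_nonneg _
      nlinarith
    have h12 : ε * ((A.filter fun y => y - x ∈ bx d (2 * r x)).card : ℝ) ≤
        5 ^ d * ((B.filter fun y => y - x ∈ bx d (r x)).card : ℝ) := by
      calc _ ≤ ε * (5 ^ d * (2 * (r x : ℝ) + 1) ^ d) :=
            mul_le_mul_of_nonneg_left (h10.trans h11) hε.le
        _ = 5 ^ d * (ε * (2 * (r x : ℝ) + 1) ^ d) := by ring
        _ ≤ _ := mul_le_mul_of_nonneg_left h7 (by positivity)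
    rw [h8, h9]
    linarith

/-- VIT -/
theorem vit : VitStmt := by
  intro d A B r ε hε h
  apply vit_aux A.card A B r ε hε le_rfl
  intro x hx
  refine (h x hx).trans (le_of_eq ?_)
  congr 1
  rw [← Set.ncard_coe_finset]
  congr 1
  ext y
  simp

end Pool.Agent.RES.H32
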