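import Pool.Agent.Helper70_RES.Stmts

/-!
# Squad RST: module WIN (the resonance window)
-/

set_option autoImplicit false

noncomputable section

namespace Pool.Agent.RES.H32

open Pool.Agent.RES

/-- WIN -/
theorem win : WinStmt := by
  intro K η v₀ g b hK hη hg0 hg1 hg2 hg3 hb1 hb2 hv
  set B := ‖b‖ with hB
  set r := g.re with hr
  set y := g.im with hy
  have hK0 : 0 < K := by linarith
  have hB0 : 0 < B := lt_of_lt_of_le (by positivity) hb1
  have hyB : y * (8 * K ^ 2) ≤ B := by
    calc y * (8 * K ^ 2) ≤ (η * K ^ 2) * (8 * K ^ 2) := by gcongr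
      _ = 8 * K ^ 4 * η := by ring
      _ ≤ B := hb1
  have hyK : y ≤ 1 / (8 * K) := by
    rw [le_div_iff₀ (by positivity)]
    have h1 : y * (8 * K) * K ≤ 1 * K := by nlinarith
    exact le_of_mul_le_mul_right h1 hK0
  have hgn : ‖g‖ ≤ |r| + y := by
    have := Complex.norm_le_abs_re_add_abs_im g
    rw [← hr, ← hy, abs_of_nonneg hg0] at this
    exact this
  have hrK : |r| ≤ K := (Complex.abs_re_le_norm g).trans hg2
  have hr7 : 7 / (8 * K) ≤ |r| := by
    have h1 : 1 / K ≤ ‖g‖ := by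
      rw [div_le_iff₀ hK0]
      linarith
    have h2 : 1 / K = 7 / (8 * K) + 1 / (8 * K) := by
      field_simp
      norm_num
    linarith
  have hr0 : 0 < |r| := lt_of_lt_of_le (by positivity) hr7
  have hrne : r ≠ 0 := abs_pos.1 hr0
  have hri : 1 / |r| ≤ 8 * K / 7 := by
    rw [div_le_div_iff₀ hr0 (by norm_num)]
    have h1 := hr7
    rw [div_le_iff₀ (by positivity)] at h1
    linarith
  have hBK : B / (4 * K) ≤ B / (4 * |r|) := by gcongr
  have key : ∀ w : ℝ, w ∈ Set.Icc (v₀ - 1 / r + B / (4 * |r|)) (v₀ - 1 / r + B / (4 * |r|) +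
      B / (4 * K)) → |w - v₀| ≤ 2 * K ^ 2 ∧ ‖1 + ((w : ℂ) - v₀) * g‖ ≤ B ∧
        B ≤ 4 * ‖1 + ((w : ℂ) - v₀) * g‖ := by
    intro w hw
    obtain ⟨s, hs⟩ : ∃ s : ℝ, s = w - v₀ + 1 / r := ⟨_, rfl⟩
    have hs1 : B / (4 * |r|) ≤ s := by
      rw [hs]
      linarith [hw.1]
    have hs2 : s ≤ B / (2 * |r|) := by
      have h1 : B / (2 * |r|) = B / (4 * |r|) + B / (4 * |r|) := by
        field_simp
        norm_num
      rw [hs, h1]
      linarith [hw.2]
    have hs0 : 0 ≤ s := le_trans (by positivity) hs1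
    have hτ : w - v₀ = s - 1 / r := by
      rw [hs]
      ring
    have h1 : |w - v₀| ≤ 2 * K ^ 2 := by
      have e1 : |w - v₀| ≤ |s| + |1 / r| := by
        rw [hτ]
        exact abs_sub _ _
      have e2 : |1 / r| = 1 / |r| := by rw [abs_div, abs_one]
      have e3 : B / (2 * |r|) = (B / 2) * (1 / |r|) := by
        field_simp
      have e4 : (B / 2) * (1 / |r|) ≤ (K / 2) * (8 * K / 7) := by
        apply mul_le_mul _ hri (by positivity) (by positivity)
        linarith
      rw [abs_of_nonneg hs0, e2] at e1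
      nlinarith
    have hre : (1 + ((w : ℂ) - v₀) * g).re = s * r := by
      have : ((w : ℂ) - v₀) = ((w - v₀ : ℝ) : ℂ) := by push_cast; ring
      rw [this, Complex.add_re, Complex.one_re, Complex.re_ofReal_mul, ← hr, hτ, sub_mul,
        one_div, inv_mul_cancel₀ hrne]
      ring
    have him : (1 + ((w : ℂ) - v₀) * g).im = (w - v₀) * y := by
      have : ((w : ℂ) - v₀) = ((w - v₀ : ℝ) : ℂ) := by push_cast; ring
      rw [this, Complex.add_im, Complex.one_im, Complex.im_ofReal_mul, ← hy, zero_add]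
    have hre1 : |(1 + ((w : ℂ) - v₀) * g).re| = s * |r| := by
      rw [hre, abs_mul, abs_of_nonneg hs0]
    have hre2 : B / 4 ≤ s * |r| := by
      have := mul_le_mul_of_nonneg_right hs1 hr0.le
      have e : B / (4 * |r|) * |r| = B / 4 := by field_simp
      rwa [e] at this
    have hre3 : s * |r| ≤ B / 2 := by
      have := mul_le_mul_of_nonneg_right hs2 hr0.le
      have e : B / (2 * |r|) * |r| = B / 2 := by field_simp
      rwa [e] at this
    have him1 : |(1 + ((w : ℂ) - v₀) * g).im| ≤ B / 4 := by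
      rw [him, abs_mul, abs_of_nonneg hg0]
      calc |w - v₀| * y ≤ 2 * K ^ 2 * y := by gcongr
        _ = y * (8 * K ^ 2) / 4 := by ring
        _ ≤ B / 4 := by linarith
    refine ⟨h1, ?_, ?_⟩
    · have := Complex.norm_le_abs_re_add_abs_im (1 + ((w : ℂ) - v₀) * g)
      rw [hre1] at this
      linarith
    · have := Complex.abs_re_le_norm (1 + ((w : ℂ) - v₀) * g)
      rw [hre1] at this
      linarith
  refine ⟨v₀ - 1 / r + B / (4 * |r|), ?_, ?_⟩
  · intro w hw
    obtain ⟨h1, -, -⟩ := key w hw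
    rw [abs_le] at h1 hv
    constructor
    · nlinarith [h1.1, hv.1]
    · nlinarith [h1.2, hv.2]
  · intro w hw
    obtain ⟨h1, h2, h3⟩ := key w hw
    exact ⟨h1.trans (by nlinarith), h2, h3⟩

end Pool.Agent.RES.H32
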